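import Pool.Agent.Helper75.Ekr.Final

namespace Pool.Agent.Results.MP_c6b05a_co.AlternatingRobust

open Pool.Agent.Helper75.EkrDefs

/-- There is `N` (with `N ≤ 10 ^ 15`) such that for all `n ≥ N` the alternating group `A_n` in its
natural action on `n` points is EKR robust. -/
theorem result : ∃ N : ℕ, N ≤ 10 ^ 15 ∧ ∀ n : ℕ, N ≤ n → EKRRobust (alternatingGroup (Fin n)) :=
  ⟨10 ^ 15, le_rfl, fun n hn => Pool.Agent.Helper75.Ekr.robust_alternating n (by norm_num at hn; exact hn)⟩

end Pool.Agent.Results.MP_c6b05a_co.AlternatingRobust
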